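import Mathlib

namespace Pool.Agent.Results.MP_96b1db_co.Rational

open Polynomial Finset Sum

/-- The Wiener polynomial: half the sum of `X ^ d(u,v)` over ordered pairs of distinct vertices,
i.e. the sum over unordered pairs. -/
noncomputable def wiener {V : Type} [Fintype V] (G : SimpleGraph V) : ℂ[X] :=
  C (1 / 2) * ∑ p ∈ (univ : Finset V).offDiag, X ^ G.dist p.1 p.2

lemma dist_eq {V : Type} (G : SimpleGraph V) (δ : V → V → ℕ) (h0 : ∀ u, δ u u = 0)
    (h1 : ∀ u v w, G.Adj v w → δ u w ≤ δ u v + 1)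
    (h2 : ∀ u v, u ≠ v → ∃ w, G.Adj w v ∧ δ u w + 1 = δ u v) (u v : V) :
    G.Reachable u v ∧ G.dist u v = δ u v := by
  have ex : ∀ m v, δ u v = m → ∃ p : G.Walk u v, p.length = m := by
    intro m
    induction m with
    | zero =>
      intro v hv
      by_cases e : u = v
      · subst e; exact ⟨.nil, rfl⟩
      · obtain ⟨w, -, hw⟩ := h2 u v e; omega
    | succ m ih =>
      intro v hv
      by_cases e : u = v
      · subst e; rw [h0] at hv; omega
      · obtain ⟨w, ha, hw⟩ := h2 u v e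
        obtain ⟨p, hp⟩ := ih w (by omega)
        exact ⟨p.concat ha, by simp [hp]⟩
  have lo : ∀ x y (p : G.Walk x y), δ u y ≤ δ u x + p.length := by
    intro x y p
    induction p with
    | nil => simp
    | @cons x z y h p ih => have := h1 u x z h; simp only [SimpleGraph.Walk.length_cons]; omega
  obtain ⟨p, hp⟩ := ex _ v rfl
  have r : G.Reachable u v := ⟨p⟩
  refine ⟨r, le_antisymm (hp ▸ SimpleGraph.dist_le p) ?_⟩
  obtain ⟨q, hq⟩ := r.exists_walk_length_eq_dist
  have := lo _ _ q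
  rw [h0] at this; omega

abbrev AA (d : ℕ) (a : ℕ → ℕ) := Σ t : Fin (d + 1), Fin (a t)

def dA {d : ℕ} {a : ℕ → ℕ} (p q : AA d a) : ℕ :=
  (p.1.val - q.1.val) + (q.1.val - p.1.val) + if p.2.val = q.2.val then 0 else 1

def dl {d : ℕ} {a : ℕ → ℕ} {N : ℕ} (nn : ℕ → ℕ) : AA d a ⊕ Fin N → AA d a ⊕ Fin N → ℕ
  | inl p, inl q => dA p q
  | inl p, inr b => p.1.val + if b.val < nn p.2.val then 1 else 2
  | inr b, inl p => p.1.val + if b.val < nn p.2.val then 1 else 2
  | inr b, inr c => if b.val = c.val then 0 else 1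

def GG (d : ℕ) (a : ℕ → ℕ) (N : ℕ) (nn : ℕ → ℕ) : SimpleGraph (AA d a ⊕ Fin N) where
  Adj u v := dl nn u v = 1
  symm := ⟨by
    rintro (p | b) (q | c) h <;> simp only [dl, dA] at h ⊢ <;> split_ifs at h ⊢ <;> omega⟩
  loopless := ⟨by rintro (p | b) h <;> simp [dl, dA] at h⟩

lemma dl_self {d : ℕ} {a : ℕ → ℕ} {N : ℕ} (nn : ℕ → ℕ) (u : AA d a ⊕ Fin N) : dl nn u u = 0 := by
  rcases u with p | b <;> simp [dl, dA]

lemma GG_dist (d : ℕ) (a : ℕ → ℕ) (N : ℕ) (nn : ℕ → ℕ) (ha : Antitone a) (s : ℕ) (hs : s < a 0)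
    (hn : nn s = N) (u v : AA d a ⊕ Fin N) :
    (GG d a N nn).Reachable u v ∧ (GG d a N nn).dist u v = dl nn u v := by
  apply dist_eq _ _ (dl_self nn)
  · rintro (p | b) (q | c) (r | e) h <;> simp only [GG, dl, dA] at h ⊢
    · split_ifs at h ⊢ <;> omega
    · by_cases e1 : p.2.val = q.2.val
      · rw [e1]; split_ifs at h ⊢ <;> omega
      · split_ifs at h ⊢ <;> omega
    · split_ifs at h ⊢ <;> omega
    · split_ifs at h ⊢ <;> omega
    · by_cases e1 : q.2.val = r.2.val
      · rw [e1] at *; split_ifs at h ⊢ <;> omega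
      · split_ifs at h ⊢ <;> omega
    · split_ifs at h ⊢ <;> omega
    · by_cases e1 : b.val = c.val
      · rw [e1]; split_ifs at h ⊢ <;> omega
      · split_ifs at h ⊢ <;> omega
    · split_ifs at h ⊢ <;> omega
  · rintro (⟨⟨x, hx⟩, ⟨i, hi⟩⟩ | ⟨b, hb⟩) (⟨⟨y, hy⟩, ⟨j, hj⟩⟩ | ⟨c, hc⟩) hne
    · by_cases h1 : x < y
      · refine ⟨inl ⟨⟨y - 1, by omega⟩, ⟨j, lt_of_lt_of_le hj (ha (Nat.sub_le y 1))⟩⟩, ?_, ?_⟩ <;>
          simp only [GG, dl, dA] <;> split_ifs <;> omega
      · by_cases h2 : i = j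
        · subst h2
          have h3 : x ≠ y := by rintro rfl; exact hne rfl
          refine ⟨inl ⟨⟨y + 1, by omega⟩, ⟨i, lt_of_lt_of_le hi (ha (show y + 1 ≤ x by omega))⟩⟩,
            ?_, ?_⟩ <;> simp only [GG, dl, dA] <;> split_ifs <;> omega
        · refine ⟨inl ⟨⟨y, hy⟩, ⟨i, lt_of_lt_of_le hi (ha (show y ≤ x by omega))⟩⟩, ?_, ?_⟩ <;>
            simp only [GG, dl, dA] <;> split_ifs <;> omega
    · by_cases h1 : c < nn i
      · refine ⟨inl ⟨⟨0, by omega⟩, ⟨i, lt_of_lt_of_le hi (ha (Nat.zero_le x))⟩⟩, ?_, ?_⟩ <;>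
          simp only [GG, dl, dA] <;> split_ifs <;> omega
      · have h2 : i ≠ s := by rintro rfl; omega
        refine ⟨inl ⟨⟨0, by omega⟩, ⟨s, hs⟩⟩, ?_, ?_⟩ <;>
          simp only [GG, dl, dA, hn] <;> split_ifs <;> omega
    · by_cases h0 : 0 < y
      · refine ⟨inl ⟨⟨y - 1, by omega⟩, ⟨j, lt_of_lt_of_le hj (ha (Nat.sub_le y 1))⟩⟩, ?_, ?_⟩ <;>
          simp only [GG, dl, dA] <;> split_ifs <;> omega
      · by_cases h1 : b < nn j
        · refine ⟨inr ⟨b, hb⟩, ?_, ?_⟩ <;> simp only [GG, dl, dA] <;> split_ifs <;> omega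
        · have h2 : j ≠ s := by rintro rfl; omega
          refine ⟨inl ⟨⟨0, by omega⟩, ⟨s, hs⟩⟩, ?_, ?_⟩ <;>
            simp only [GG, dl, dA, hn] <;> split_ifs <;> omega
    · have h2 : b ≠ c := by rintro rfl; exact hne rfl
      refine ⟨inr ⟨b, hb⟩, ?_, ?_⟩ <;> simp only [GG, dl] <;> split_ifs <;> omega

lemma fill (N v M : ℕ) : ∑ i ∈ range M, min N (v - N * i) = min (N * M) v := by
  induction M with
  | zero => simp
  | succ M ih => rw [sum_range_succ, ih, Nat.mul_succ]; omega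

lemma exists_nn (d : ℕ) (a : ℕ → ℕ) (N : ℕ) (ν : ℕ → ℕ) (ha : Antitone a) (h0 : a (d + 1) = 0)
    (hν : ∀ t ≤ d, ν t + N * a (t + 1) ≤ N * a t) (h1 : N ≤ ν 0) (h2 : a 1 < a 0) :
    ∃ nn : ℕ → ℕ, (∀ j, nn j ≤ N) ∧ nn (a 1) = N ∧
      ∀ t ≤ d, ∑ j ∈ range (a t), nn j = ∑ j ∈ range (a (t + 1)), nn j + ν t := by
  have ex : ∀ j, ∃ t, a (t + 1) ≤ j := fun j => ⟨d, by omega⟩
  have lev : ∀ t j, a (t + 1) ≤ j → j < a t → Nat.find (ex j) = t := by
    intro t j g1 g2
    rw [Nat.find_eq_iff]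
    refine ⟨g1, fun s hs => ?_⟩
    have := ha (show s + 1 ≤ t by omega)
    omega
  refine ⟨fun j => min N (ν (Nat.find (ex j)) - N * (j - a (Nat.find (ex j) + 1))),
    fun j => min_le_left _ _, ?_, fun t ht => ?_⟩
  · simp only [lev 0 (a 1) le_rfl h2]
    simpa using h1
  · have hle : a (t + 1) ≤ a t := ha (by omega)
    obtain ⟨M, hM⟩ := Nat.exists_eq_add_of_le hle
    rw [hM, sum_range_add]
    congr 1
    have : ∀ i ∈ range M, min N (ν (Nat.find (ex (a (t + 1) + i))) -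
        N * (a (t + 1) + i - a (Nat.find (ex (a (t + 1) + i)) + 1))) = min N (ν t - N * i) := by
      intro i hi
      rw [mem_range] at hi
      rw [lev t _ (by omega) (by omega), Nat.add_sub_cancel_left]
    rw [sum_congr rfl this, fill]
    have := hν t ht
    rw [hM, Nat.mul_add] at this
    omega

def cA (d : ℕ) (a : ℕ → ℕ) (k : ℕ) : ℕ :=
  ∑ p : AA d a, ∑ q : AA d a, if dA p q = k then 1 else 0

lemma dA_comm {d : ℕ} {a : ℕ → ℕ} (p q : AA d a) : dA p q = dA q p := by
  unfold dA; split_ifs <;> omega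

lemma cA_even (d : ℕ) (a : ℕ → ℕ) (k : ℕ) (hk : 0 < k) : Even (cA d a k) := by
  rw [← ZMod.natCast_eq_zero_iff_even, cA, ← Fintype.sum_prod_type']
  push_cast
  apply Finset.sum_involution (fun x _ => x.swap)
  · intro x _
    simp only [Prod.fst_swap, Prod.snd_swap, dA_comm x.2 x.1]
    split_ifs <;> rfl
  · intro x _ h e
    have : x.1 = x.2 := (congrArg Prod.snd e)
    apply h
    rw [this, if_neg]
    simp [dA]; omega
  all_goals (intro x _; first | exact mem_univ x.swap | exact Prod.swap_swap x)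

lemma cA_le (d : ℕ) (a : ℕ → ℕ) (ha : Antitone a) (t : ℕ) :
    cA d a (t + 2) ≤ 2 * (Fintype.card (AA d a) * ((d + 1) * a (t + 1))) := by
  have hT : (∑ q : AA d a, if t + 1 ≤ q.1.val then 1 else 0) ≤ (d + 1) * a (t + 1) := by
    rw [Fintype.sum_sigma]
    refine (Finset.sum_le_card_nsmul _ _ (a (t + 1)) fun s _ => ?_).trans (by simp)
    by_cases h : t + 1 ≤ s.val
    · simpa [h] using ha h
    · simp [h]
  calc cA d a (t + 2) ≤ ∑ p : AA d a, ∑ q : AA d a,
        ((if t + 1 ≤ q.1.val then 1 else 0) + if t + 1 ≤ p.1.val then 1 else 0) := by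
        refine sum_le_sum fun p _ => sum_le_sum fun q _ => ?_
        unfold dA; split_ifs <;> omega
    _ = 2 * (Fintype.card (AA d a) * ∑ q : AA d a, if t + 1 ≤ q.1.val then 1 else 0) := by
        simp only [sum_add_distrib, sum_const, card_univ, smul_eq_mul, ← mul_sum]; ring
    _ ≤ _ := by gcongr

lemma cA_zero (d : ℕ) (a : ℕ → ℕ) (k : ℕ) (hk : d + 1 < k) : cA d a k = 0 := by
  refine sum_eq_zero fun p _ => sum_eq_zero fun q _ => if_neg ?_
  have := p.1.2; have := q.1.2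
  unfold dA; split_ifs <;> omega

def cX (d : ℕ) (a : ℕ → ℕ) (N : ℕ) (nn : ℕ → ℕ) (k : ℕ) : ℕ :=
  ∑ p : AA d a, ∑ b : Fin N, if (p.1.val + if b.val < nn p.2.val then 1 else 2) = k then 1 else 0

lemma cnt_lt (N m : ℕ) (h : m ≤ N) : (∑ b : Fin N, if b.val < m then 1 else 0) = m := by
  rw [Fin.sum_univ_eq_sum_range (fun b => if b < m then 1 else 0), ← card_filter]
  have : (range N).filter (· < m) = range m := by ext x; simp; omega
  rw [this, card_range]

lemma cX_eq (d : ℕ) (a : ℕ → ℕ) (N : ℕ) (nn : ℕ → ℕ) (hn : ∀ j, nn j ≤ N) (h0 : a (d + 1) = 0)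
    (t : ℕ) (ht : t ≤ d) :
    cX d a N nn (t + 2) + ∑ j ∈ range (a t), nn j = ∑ j ∈ range (a (t + 1)), nn j + N * a t := by
  have e1 : ∀ p : AA d a, (∑ b : Fin N,
      if (p.1.val + if b.val < nn p.2.val then 1 else 2) = t + 2 then 1 else 0) +
        (if p.1.val = t then nn p.2.val else 0) =
      (if p.1.val = t + 1 then nn p.2.val else 0) + if p.1.val = t then N else 0 := by
    intro p
    have c := cnt_lt N _ (hn p.2.val)
    by_cases g1 : p.1.val = t
    · rw [if_pos g1, if_pos g1, if_neg (by omega)]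
      have e : (∑ b : Fin N, if (p.1.val + if b.val < nn p.2.val then 1 else 2) = t + 2
          then 1 else 0) + (∑ b : Fin N, if b.val < nn p.2.val then 1 else 0) = N := by
        rw [← sum_add_distrib, sum_congr rfl (g := fun _ => 1)]
        · simp
        · intro b _; split_ifs <;> omega
      omega
    · rw [if_neg g1, if_neg g1]
      by_cases g2 : p.1.val = t + 1
      · rw [if_pos g2]
        have e : (∑ b : Fin N, if (p.1.val + if b.val < nn p.2.val then 1 else 2) = t + 2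
            then 1 else 0) = (∑ b : Fin N, if b.val < nn p.2.val then 1 else 0) := by
          refine sum_congr rfl fun b _ => ?_
          split_ifs <;> omega
        omega
      · rw [if_neg g2, sum_eq_zero]
        intro b _; split_ifs <;> omega
  have e2 : ∀ (s : ℕ) (g : ℕ → ℕ), s ≤ d + 1 →
      (∑ p : AA d a, if p.1.val = s then g p.2.val else 0) = ∑ j ∈ range (a s), g j := by
    intro s g hs
    rw [Fintype.sum_sigma]
    by_cases h : s = d + 1
    · rw [h, h0, sum_eq_zero]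
      · simp
      · intro x _
        exact sum_eq_zero fun y _ => if_neg (by have := x.2; simp only; omega)
    · rw [sum_eq_single (⟨s, by omega⟩ : Fin (d + 1))]
      · simp only [if_true]
        exact Fin.sum_univ_eq_sum_range g (a s)
      · intro x _ hx
        exact sum_eq_zero fun y _ => if_neg fun e => hx (Fin.ext e)
      · simp
  have e3 := e2 t (fun _ => N) (by omega)
  rw [← e2 t nn (by omega), ← e2 (t + 1) nn (by omega), cX, ← sum_add_distrib,
    sum_congr rfl fun p _ => e1 p, sum_add_distrib, e3]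
  simp [mul_comm]

lemma cX_zero (d : ℕ) (a : ℕ → ℕ) (N : ℕ) (nn : ℕ → ℕ) (k : ℕ) (hk : d + 2 < k) :
    cX d a N nn k = 0 := by
  refine sum_eq_zero fun p _ => sum_eq_zero fun q _ => if_neg ?_
  have := p.1.2
  split_ifs <;> omega

lemma total (d : ℕ) (a : ℕ → ℕ) (N : ℕ) (nn : ℕ → ℕ) (k : ℕ) (hk : 2 ≤ k) :
    (∑ u : AA d a ⊕ Fin N, ∑ v : AA d a ⊕ Fin N, if dl nn u v = k then 1 else 0) =
      cA d a k + 2 * cX d a N nn k := by
  simp only [Fintype.sum_sum_type, sum_add_distrib]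
  have z : (∑ b : Fin N, ∑ c : Fin N,
      if dl (d := d) (a := a) nn (inr b) (inr c) = k then 1 else 0) = 0 :=
    sum_eq_zero fun b _ => sum_eq_zero fun c _ => if_neg (by simp only [dl]; split_ifs <;> omega)
  have z1 : (∑ p : AA d a, ∑ q : AA d a,
      if dl (N := N) nn (inl p) (inl q) = k then 1 else 0) = cA d a k := rfl
  have z2 : (∑ p : AA d a, ∑ b : Fin N,
      if dl nn (inl p) (inr b) = k then 1 else 0) = cX d a N nn k := rfl
  have z3 : (∑ b : Fin N, ∑ p : AA d a,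
      if dl nn (inr b) (inl p) = k then 1 else 0) = cX d a N nn k := by
    rw [sum_comm]; rfl
  rw [z, z1, z2, z3]; ring

lemma build (d : ℕ) (a : ℕ → ℕ) (N : ℕ) (τ : ℕ → ℕ) (ha : Antitone a) (h0 : a (d + 1) = 0)
    (h2 : a 1 < a 0) (h3 : ∀ t ≤ d, τ t + N ≤ N * a t)
    (h4 : ∀ t ≤ d, N * a (t + 1) + Fintype.card (AA d a) * ((d + 1) * a (t + 1)) ≤ τ t)
    (h5 : ∀ t, d < t → τ t = 0) :
    ∃ G : SimpleGraph (AA d a ⊕ Fin N), G.Preconnected ∧ ∀ t,
      (∑ u, ∑ v, if G.dist u v = t + 2 then 1 else 0) = 2 * τ t := by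
  have hh : ∀ t, ∃ h, cA d a (t + 2) = h + h := fun t => cA_even d a _ (by omega)
  choose h hh using hh
  have hb : ∀ t ≤ d, h t + N * a (t + 1) ≤ τ t := by
    intro t ht
    have := cA_le d a ha t
    have := hh t
    have := h4 t ht
    omega
  obtain ⟨nn, n1, n2, n3⟩ := exists_nn d a N (fun t => N * a t + h t - τ t) ha h0
    (fun t ht => by have := hb t ht; have := h3 t ht; omega)
    (by have := h3 0 (by omega); omega) h2
  have hd := GG_dist d a N nn ha (a 1) h2 n2
  refine ⟨GG d a N nn, fun u v => (hd u v).1, fun t => ?_⟩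
  simp only [fun u v => (hd u v).2]
  rw [total d a N nn _ (by omega)]
  by_cases ht : t ≤ d
  · have := cX_eq d a N nn n1 h0 t ht
    have := n3 t ht
    have := hh t
    have := h3 t ht
    omega
  · rw [cA_zero d a _ (by omega), cX_zero d a N nn _ (by omega), h5 t (by omega)]

lemma poly {V : Type} [Fintype V] (G : SimpleGraph V) (hG : G.Preconnected) (d q n : ℕ)
    (hn : Fintype.card V = n + 1) (hq : n + 1 = 2 * (q + 1) ^ (d + 1))
    (h : ∀ t, (∑ u, ∑ v, if G.dist u v = t + 2 then 1 else 0) =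
      2 * (n * (q ^ (d - t) * (d + 1).choose (t + 1)))) :
    wiener G = C (n : ℂ) * X * (X + C (q : ℂ)) ^ (d + 1) := by
  classical
  set P : ℂ[X] := ∑ p ∈ (univ : Finset V).offDiag, X ^ G.dist p.1 p.2 with hP
  set Q : ℂ[X] := C (2 * n : ℂ) * (X * (X + C (q : ℂ)) ^ (d + 1)) with hQ
  have co : ∀ k, k ≠ 1 → P.coeff k = Q.coeff k := by
    intro k hk
    rw [hP, finset_sum_coeff]
    simp only [coeff_X_pow]
    rcases k with _ | _ | t
    · rw [sum_eq_zero]
      · simp [hQ]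
      · intro p hp
        rw [mem_offDiag] at hp
        rw [if_neg]
        intro e
        exact hp.2.2 ((hG p.1 p.2).dist_eq_zero_iff.1 e.symm)
    · exact absurd rfl hk
    · rw [hQ, coeff_C_mul, coeff_X_mul, coeff_X_add_C_pow]
      have e := congrArg (Nat.cast : ℕ → ℂ) (h t)
      rw [← Fintype.sum_prod_type'] at e
      push_cast at e
      rw [show d + 1 - (t + 1) = d - t by omega, mul_assoc, ← e]
      rw [sum_subset (subset_univ _)]
      · exact sum_congr rfl fun p _ => by simp only [eq_comm]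
      · intro p _ hp
        have : p.1 = p.2 := by simpa [mem_offDiag] using hp
        rw [this, SimpleGraph.dist_self, if_neg (by omega)]
  have ev : P.eval 1 = Q.eval 1 := by
    rw [hP, eval_finset_sum]
    simp only [eval_pow, eval_X, one_pow, sum_const, offDiag_card, card_univ, hn, hQ, eval_mul,
      eval_C, eval_add, nsmul_eq_mul, mul_one, one_mul]
    have e := congrArg (Nat.cast : ℕ → ℂ) hq
    rw [show (n + 1) * (n + 1) - (n + 1) = n * (n + 1) by
      rw [Nat.sub_eq_iff_eq_add (Nat.le_mul_self _)]; ring]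
    push_cast at e ⊢
    rw [e, add_comm (1 : ℂ)]; ring
  have mono : P - Q = monomial 1 ((P - Q).coeff 1) := by
    ext k
    rw [coeff_monomial]
    split_ifs with hk
    · rw [hk]
    · rw [coeff_sub, co k (Ne.symm hk), sub_self]
  have z : (P - Q).coeff 1 = 0 := by
    have := congrArg (eval 1) mono
    rw [eval_sub, ev, sub_self, eval_monomial] at this
    simpa using this.symm
  rw [z, monomial_zero_right, sub_eq_zero] at mono
  rw [wiener, ← hP, mono, hQ, ← mul_assoc, ← C_mul, mul_assoc]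
  congr 2; ring

theorem result : ∀ D : ℕ, ∃ (V : Type) (_ : Fintype V) (G : SimpleGraph V),
    G.Connected ∧ (∃ u v, D ≤ G.dist u v) ∧ wiener G ≠ 0 ∧
      ∀ z : ℂ, (wiener G).IsRoot z → ∃ r : ℚ, z = r := by
  intro d
  obtain ⟨K, hK⟩ : ∃ K, K = 2 ^ (d + 3) := ⟨_, rfl⟩
  obtain ⟨q, hq⟩ : ∃ q, q = (d + 2) * K := ⟨_, rfl⟩
  have K2 : 2 ≤ K := by
    rw [hK]; exact (show 2 ^ 1 ≤ 2 ^ (d + 3) from Nat.pow_le_pow_right (by norm_num) (by omega))
  have q2 : 2 ≤ q := by rw [hq]; nlinarith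
  obtain ⟨a, haa⟩ : ∃ a : ℕ → ℕ, ∀ t, a t = if t ≤ d then K * q ^ (d - t) else 0 := ⟨_, fun _ => rfl⟩
  have ha : Antitone a := by
    intro s t hst
    rw [haa, haa]
    split_ifs with g1 g2
    · exact Nat.mul_le_mul_left _ (Nat.pow_le_pow_right (by omega) (by omega))
    · omega
    · exact Nat.zero_le _
    · exact le_rfl
  have step : ∀ t ≤ d, (d + 2) * a (t + 1) ≤ q ^ (d - t) := by
    intro t ht
    rw [haa]
    split_ifs with g
    · rw [← mul_assoc, ← hq, ← pow_succ', show d - (t + 1) + 1 = d - t by omega]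
    · simp
  have a0 : a 0 = K * q ^ d := by rw [haa, if_pos (by omega)]; rfl
  have qp : ∀ m, 0 < q ^ m := fun m => Nat.pow_pos (by omega)
  obtain ⟨m, hm⟩ : ∃ m, m = Fintype.card (AA d a) := ⟨_, rfl⟩
  have m1 : m ≤ (q + 1) ^ (d + 1) := by
    have : m ≤ (d + 1) * a 0 := by
      rw [hm, Fintype.card_sigma]
      refine (Finset.sum_le_card_nsmul _ _ (a 0) fun s _ => ?_).trans (by simp)
      simpa using ha (Nat.zero_le s.val)
    refine this.trans (le_trans ?_ (Nat.pow_le_pow_left (Nat.le_succ q) _))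
    rw [a0, pow_succ', ← mul_assoc]
    exact Nat.mul_le_mul_right _ (by rw [hq]; nlinarith)
  have m0 : 0 < m := by
    rw [hm]
    exact Fintype.card_pos_iff.2 ⟨⟨0, ⟨0, by
      show 0 < a 0
      rw [a0]; exact Nat.mul_pos (by omega) (qp d)⟩⟩⟩
  obtain ⟨N, hN⟩ : ∃ N, N + m = 2 * (q + 1) ^ (d + 1) := ⟨2 * (q + 1) ^ (d + 1) - m, by omega⟩
  obtain ⟨n, hn⟩ : ∃ n, n + 1 = 2 * (q + 1) ^ (d + 1) := ⟨2 * (q + 1) ^ (d + 1) - 1, by omega⟩
  have mN : m ≤ N := by omega
  have Nn : N ≤ n := by omega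
  have nN : n ≤ 2 * N := by omega
  obtain ⟨G, hG, hc⟩ := build d a N (fun t => n * (q ^ (d - t) * (d + 1).choose (t + 1))) ha
    (by rw [haa, if_neg (by omega)])
    (by have := step 0 (by omega); have := qp d; rw [a0]; simp only [Nat.sub_zero, zero_add] at *
        nlinarith)
    (by
      intro t ht
      have c1 : (d + 1).choose (t + 1) ≤ 2 ^ (d + 1) := Nat.choose_le_two_pow _ _
      have c2 : K = 4 * 2 ^ (d + 1) := by rw [hK]; ring
      have c3 := qp (d - t)
      have c4 : 0 < 2 ^ (d + 1) := by positivity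
      rw [haa, if_pos ht, c2]
      have c5 : n * (q ^ (d - t) * (d + 1).choose (t + 1)) ≤ 2 * N * (q ^ (d - t) * 2 ^ (d + 1)) := by
        gcongr
      have c6 : N * 1 ≤ N * (q ^ (d - t) * 2 ^ (d + 1)) :=
        Nat.mul_le_mul_left _ (Nat.mul_pos c3 c4)
      nlinarith)
    (by
      intro t ht
      have c1 : 1 ≤ (d + 1).choose (t + 1) := Nat.choose_pos (by omega)
      have c2 := step t ht
      rw [← hm]
      calc N * a (t + 1) + m * ((d + 1) * a (t + 1))
          ≤ N * a (t + 1) + N * ((d + 1) * a (t + 1)) := by gcongr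
        _ = N * ((d + 2) * a (t + 1) * 1) := by ring
        _ ≤ _ := by gcongr)
    (by intro t ht; simp [Nat.choose_eq_zero_of_lt (show d + 1 < t + 1 by omega)])
  have hcard : Fintype.card (AA d a ⊕ Fin N) = n + 1 := by
    rw [Fintype.card_sum, Fintype.card_fin, ← hm]; omega
  have hw := poly G hG d q n hcard hn hc
  have n0 : (n : ℂ) ≠ 0 := by exact_mod_cast (show n ≠ 0 by omega)
  have ne : Nonempty (AA d a ⊕ Fin N) := Fintype.card_pos_iff.1 (by omega)
  refine ⟨_, inferInstance, G, ⟨hG⟩, ?_, ?_, fun z hz => ?_⟩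
  · by_contra hno
    push Not at hno
    have := hc d
    rw [sum_eq_zero fun u _ => sum_eq_zero fun v _ => if_neg (by have := hno u v; omega)] at this
    simp at this
    omega
  · rw [hw]
    exact mul_ne_zero (mul_ne_zero (C_ne_zero.2 n0) X_ne_zero) (pow_ne_zero _ (X_add_C_ne_zero _))
  · rw [hw, IsRoot.def] at hz
    simp only [eval_mul, eval_C, eval_X, eval_pow, eval_add, mul_eq_zero, n0, false_or,
      pow_eq_zero_iff (Nat.succ_ne_zero d)] at hz
    rcases hz with rfl | hz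
    · exact ⟨0, by simp⟩
    · exact ⟨-q, by push_cast; exact eq_neg_of_add_eq_zero_left hz⟩

end Pool.Agent.Results.MP_96b1db_co.Rational
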